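import Mathlib
import Pool.Agent.H759R2.Kad.Props7

open scoped ComplexOrder InnerProductSpace ComplexConjugate
open Finset

noncomputable section

namespace H759R2.Kad

universe u v

theorem prove7_der (h1 : G_all.{0, 0}) (h2 : S_final.{0, 0}) (h3 : D_scale.{0, 0}) : G_der := by
  intro A _ H _ _ _ π δ hδ
  let _ : PartialOrder (Unitization ℂ A) := CStarAlgebra.spectralOrder _
  have : StarOrderedRing (Unitization ℂ A) := CStarAlgebra.spectralOrderedRing _
  let π1 : Unitization ℂ A →⋆ₐ[ℂ] (H →L[ℂ] H) := Unitization.starLift π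
  let D : Unitization ℂ A →ₗ[ℂ] (H →L[ℂ] H) := (δ : A →ₗ[ℂ] (H →L[ℂ] H)) ∘ₗ
    { toFun := fun x : Unitization ℂ A => x.snd
      map_add' := fun _ _ => rfl
      map_smul' := fun _ _ => rfl }
  have hπ1 : ∀ x : Unitization ℂ A, π1 x = x.fst • (1 : H →L[ℂ] H) + π x.snd := by
    intro x
    have : π1 x = algebraMap ℂ (H →L[ℂ] H) x.fst + π x.snd := rfl
    rw [this, Algebra.algebraMap_eq_smul_one]
  have hD : ∀ x : Unitization ℂ A, D x = δ x.snd := fun x => rfl
  have hmul : ∀ x y : Unitization ℂ A, D (x * y) = π1 x * D y + D x * π1 y := by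
    intro x y
    rw [hπ1, hπ1, hD, hD, hD, Unitization.snd_mul, map_add, map_add, map_smul, map_smul, hδ]
    simp only [add_mul, mul_add, smul_mul_assoc, one_mul, mul_smul_comm, mul_one]
    abel
  have hsnd : ∀ x : Unitization ℂ A, ‖x.snd‖ ≤ 2 * ‖x‖ := by
    intro x
    have e1 : ‖x.fst‖ ≤ ‖x‖ := by
      rw [Unitization.norm_eq_sup]
      exact le_sup_left
    have e2 : ‖(x.snd : Unitization ℂ A)‖ = ‖x.snd‖ := Unitization.norm_inr x.snd
    have e3 : (x.snd : Unitization ℂ A) = x - algebraMap ℂ (Unitization ℂ A) x.fst := by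
      rw [eq_sub_iff_add_eq, Unitization.algebraMap_eq_inl]
      ext <;> simp
    rw [← e2, e3]
    refine (norm_sub_le _ _).trans ?_
    rw [norm_algebraMap']
    linarith
  set R : ℝ := 2592 * 6 ^ 25 * (4 * 2) ^ 77 with hR
  have hR1 : 1 ≤ R := by rw [hR]; norm_num
  obtain ⟨T, -, hT⟩ := h3 (Unitization ℂ A) H R (by linarith) (by
    intro w hw hwn
    have hl := h1 (Unitization ℂ A) (HH (Fin 2) H) w hw 2 (by norm_num) hwn
    obtain ⟨S, S', hSS, hSS', hn, hn', hs⟩ := h2 (Unitization ℂ A) (HH (Fin 2) H) w hw R hR1 hl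
    refine ⟨S, S', hSS, hSS', ?_, hs⟩
    have : (‖S‖ * ‖S'‖) ^ 2 ≤ R ^ 2 := by
      rw [mul_pow]
      nlinarith [sq_nonneg (‖S‖), sq_nonneg (‖S'‖)]
    exact le_of_sq_le_sq this (by linarith)) π1 D hmul (2 * ‖δ‖) (by positivity) (by
    intro x
    rw [hD]
    refine (δ.le_opNorm _).trans ?_
    have := hsnd x
    nlinarith [norm_nonneg δ, norm_nonneg x])
  refine ⟨-T, ?_⟩
  intro a
  have := hT (a : Unitization ℂ A)
  rw [hD, hπ1] at this
  simp only [Unitization.snd_inr, Unitization.fst_inr, zero_smul, zero_add] at this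
  rw [this, mul_neg, neg_mul]
  abel

end H759R2.Kad
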